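import Pool.Agent.Q34.HF.Main

/-!
# Every non-isotrivial family decides the SYZ conjecture for its deformation type

Consider the compact hyperkähler manifolds, projective or not, of one deformation type (a connected
component of the moduli space of marked manifolds). Let `X s`, `s ∈ Ω`, be any non-isotrivial
holomorphic family of such manifolds over a connected open set `Ω` of the complex plane, and let
`U ⊆ Ω` be open and not empty, as small as you like. Then there are finitely many manifolds `M i` with
the periods of members `X (s i)`, `s i ∈ U` (bimeromorphic models of `X (s i)` or of its complex
conjugate), and non-trivial nef line bundles `L i` on `M i` with `q (L i) = 0`, one for each orbit of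
the monodromy group on the isotropic classes up to multiples, such that the strong form of the SYZ
conjecture for all manifolds of the deformation type is equivalent to its conclusion for the pairs
`(M i, L i)`.

For example let `X s` be the degenerate twistor line `σ + s l₀`, `s ∈ ℂ`, of the class `l₀` of a nef line
bundle with `q = 0` on some `M₀` (it is a family as in the theorem, see
`Pool.Agent.Q34.HF.Fibrations.degenerate_twistor_line`). If `l₀` comes from a Lagrangian
fibration of `M₀`, the members are the Tate-Shafarevich twists of this fibration. So the conjecture for a
deformation type which contains a Lagrangian fibration may be checked on projective manifolds which are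
bimeromorphic to twists of this one fibration, by arbitrarily small parameters.

Proof: the directions of the orbit of an integral isotropic class under the monodromy group are dense in the
real isotropic cone (Eichler transvections); there is a real isotropic class of type `(1,1)` on `X s₀`
which does not stay of type `(1,1)`, and by the argument principle all nearby real classes become of type
`(1,1)` at points near `s₀`; a chamber argument makes the class nef on a manifold with the same period;
finally Matsushita's theorem.
-/

set_option autoImplicit false

universe u

namespace Pool.Agent.Results.MP_a405d2_ag.EveryFamilyDecides

open Pool.Agent.Q50.HK Pool.Agent.Q34.HF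

/-- **Every family decides.** Let `σ` be the period map of a holomorphic family over a connected open set
`Ω` of the complex plane which is not constant, and `U ⊆ Ω` open, not empty. Then finitely many pairs
`(M, L)`, where `M` has the period of a member over a point of `U`, and the class `l` of `L` is not of
type `(1,1)` on some other member over `U`, decide the SYZ conjecture for the deformation type. If some
nonzero integral class of square `≥ 0` stays of type `(1,1)` on the whole family, these `M` are
projective. -/
theorem result {n : ℕ} (hn : 4 ≤ n) (T : Fibrations.{u} n) (hT : T.Facts) (Ω : Set ℂ)
    (σ : ℂ → Fin n → ℂ) (h : PeriodMap T.toModuli Ω σ)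
    (hne : ∃ s ∈ Ω, ∃ t ∈ Ω, plane (σ s) ≠ plane (σ t))
    (U : Set ℂ) (hU : IsOpen U) (hUΩ : U ⊆ Ω) (hU0 : U.Nonempty) :
    T.FinitelyManyDecide fun M l =>
      (∃ s ∈ U, T.period M = plane (σ s)) ∧ (∃ t ∈ U, ¬ T.Orth (plane (σ t)) l) ∧
      ((∃ c, IsInt c ∧ c ≠ 0 ∧ 0 ≤ T.B c c ∧ ∀ t ∈ Ω, T.Orth (plane (σ t)) c) →
        T.Projective M) :=
  Fibrations.family_decides hT hn h hne hU hUΩ hU0

end Pool.Agent.Results.MP_a405d2_ag.EveryFamilyDecides
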