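import Pool.Agent.Q50.HK.PMain

/-!
# The SYZ conjecture and parabolic automorphisms of hyperkähler manifolds

Consider the compact hyperkähler manifolds of one deformation type (a connected component of the moduli
space of marked manifolds), with second Betti number `n ≥ 5`. The strong form of the hyperkähler SYZ
conjecture for all of them, projective or not, is equivalent to the statement that every parabolic
automorphism preserves a Lagrangian fibration; it is enough to know this for the projective manifolds of
Picard number three, or for the non-projective manifolds of Picard number two.

Idea: for a rational isotropic class `ℓ` choose an integral class `a ⊥ ℓ` such that the integral classes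
in the plane of `ℓ` and `a` have square zero or very negative square. There is a deformation `M'` of
the manifold on which `ℓ` is still nef, with Néron-Severi group spanned by `ℓ`, `a` (and a third
class), for which no wall of the Kähler cone passes through `ℓ`. Then a power of the Eichler transvection
of `ℓ` and `a` comes from an automorphism of `M'`, and the only isotropic classes of type `(1,1)` which
it fixes are the multiples of `ℓ`.
-/

set_option autoImplicit false

universe u

namespace Pool.Agent.Results.MP_a405d2_ag.ParabolicAutomorphisms

open Pool.Agent.Q50.HK

/-- **SYZ and parabolic automorphisms.** The following are equivalent, for the hyperkähler manifolds of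
one deformation type with `b₂ = n ≥ 5`: (1) for all `M`, every non-trivial nef line bundle `L` with
`q(L) = 0` comes from a Lagrangian fibration, `L ^ k ≅ π^* A`; (2) every parabolic automorphism of every
`M` preserves a Lagrangian fibration; (3) the same for `M` projective with Picard number three; (4) the
same for `M` non-projective with Picard number two. -/
theorem result {n : ℕ} (hn : 5 ≤ n) (T : Symmetries.{u} n) (hT : T.Facts) :
    [(∀ M l, T.NefIsotropic M l → T.SYZ M l),
     (∀ M g, T.IsParabolic M g → ∃ π, T.Preserves M g π),
     (∀ M g, T.Projective M → T.picard M = 3 → T.IsParabolic M g → ∃ π, T.Preserves M g π),
     (∀ M g, ¬ T.Projective M → T.picard M = 2 → T.IsParabolic M g →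
        ∃ π, T.Preserves M g π)].TFAE :=
  Symmetries.tfae hT hn

end Pool.Agent.Results.MP_a405d2_ag.ParabolicAutomorphisms
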